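import Mathlib
import Pool.Agent.Lib.HT26.B_BRG
import Pool.Agent.Lib.HF26.Asm2
import Pool.Agent.Lib.HF26.F_R0
import Pool.Agent.Lib.HF26.F_FRA
import Pool.Agent.Lib.HF26.F_FRC
import Pool.Agent.Lib.HF26.F_SYL1
import Pool.Agent.Lib.HF26.F_SYL2
import Pool.Agent.Lib.HF26.F_MINP
import Pool.Agent.Lib.HF26.F_MINV
import Pool.Agent.Lib.HF26.F_EIG
import Pool.Agent.Lib.HF26.F_INV
import Pool.Agent.Lib.HF26.F_RAT
import Pool.Agent.Lib.HF26.F_POLY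
import Pool.Agent.Lib.HF26.F_HP
import Pool.Agent.Lib.HF26.F_XS
import Pool.Agent.Lib.HF26.F_G0
import Pool.Agent.Lib.HF26.F_BRF
import Pool.Agent.Lib.HF26.F_S3
import Pool.Agent.Lib.HF26.F_S2
import Pool.Agent.Lib.HF26.F_G3A
import Pool.Agent.Lib.HF26.F_G3B
import Pool.Agent.Lib.HF26.F_S4
import Pool.Agent.Lib.HF26.F_CVS
import Pool.Agent.Lib.HF26.F_CVN
import Pool.Agent.Lib.HF26.F_S3V
import Pool.Agent.Lib.HF26.F_G3V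
import Pool.Agent.Lib.HF26.F_SWAP
import Pool.Agent.Lib.HF26.F_CVF

open MeasureTheory Pool.Agent.Lib.HT26 Pool.Agent.Lib.HF26

namespace Pool.Agent.Results.MP_945c9c_an.GivenFamily

/-- Weights for the Hilbert transform on the joint kernel of n given bounded functionals. -/
theorem result (p : ℝ) (hp : 1 < p) (U : ℝ → ℝ) (hU0 : ∀ x, 0 ≤ U x)
    (hU : LocallyIntegrable U volume) (n : ℕ) (φ : Fin n → ℝ → ℂ)
    (hφ : ∀ j, AEStronglyMeasurable (φ j) volume ∧ ∃ M : ℝ, ∀ᵐ y : ℝ, ‖φ j y‖ ≤ M) :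
    AdmF p n φ U ↔
      ∃ (k : ℕ) (P : Polynomial ℂ), P ≠ 0 ∧ k ≤ n ∧ P.natDegree ≤ n ∧ P.natDegree ≤ k + 1 ∧
        Adm p (fun _ => 0)
          (fun x => U x * (‖(x : ℂ) - Complex.I‖ ^ k / ‖P.eval (x : ℂ)‖) ^ p) ∧
        (∀ j : ℕ, 1 ≤ j → j ≤ k → ∃ c : Fin n → ℂ,
          BddFun p U (fun y => 1 / ((y : ℂ) - Complex.I) ^ j - ∑ l, c l * φ l y)) ∧
        (P.natDegree = k + 1 → ∃ c : Fin n → ℂ, ∀ᵐ y : ℝ, ∑ l, c l * φ l y = 1) := by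
  have hS2 := fS2 fSYL2 fMINV fEIG fRAT fINV
  have hS3 := fS3 fFRA fFRC fSYL1 fSYL2 fMINP fEIG
  have hG0 := fG0 fR0 fXS
  have hCVN := fCVN (fHP fPOLY) fCVS
  exact asm2 bBRG fBRF hG0 (fG3A fXS fEIG hS2 hS3) (fG3B fXS fEIG hS2 hS3) fPOLY fS4 hS2
    (fG3V fXS (fS3V fFRA fSYL2 fEIG)) (fCVF hCVN hG0 hS2 fEIG (fSWAP fXS fFRC))
    p hp U hU0 hU n φ hφ

end Pool.Agent.Results.MP_945c9c_an.GivenFamily
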